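import Pool.Agent.H91.ProdRec

set_option autoImplicit false

open Filter Topology H91.ProdRec in
theorem Pool.Agent.Results.MP_93a94a_an.Never.result :
    ∀ (k p : ℕ) (α : ℕ → ℝ), (∀ n, 0 ≤ α n) → 2 ≤ p → (∀ n, α (n + p) = α n) →
    (∀ q, 0 < q → q < p → ∃ n, α (n + q) ≠ α n) → (∃ x, Sol k α x) ∧ ∀ x, Sol k α x →
    ¬ ∃ y : ℕ → ℝ, (∀ j, 0 < y j) ∧ (∀ j, y (j + (k + 2)) = y j) ∧
      Tendsto (fun j => x j - y j) atTop (𝓝 0) :=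
  main
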